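import Pool.Agent.H32.PermBasic

/-!
The arrow matrix `[[-s, 1, ..., 1], [1, I_s]]`: its permanent vanishes and its matrix of
cofactor permanents is nonsingular when `2` is invertible.
-/

namespace Pool.Agent.H32

open Matrix Finset Equiv

theorem perm_eq_swap {α : Type*} [DecidableEq α] (o : α) (σ : Perm α)
    (h : ∀ i, i ≠ o → σ i = o ∨ σ i = i) : σ = swap o (σ o) := by
  ext i
  by_cases hi : i = o
  · subst hi; simp
  by_cases hi2 : i = σ o
  · rcases h i hi with h1 | h1
    · rw [h1, hi2, swap_apply_right]
    · exfalso
      apply hi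
      apply σ.injective
      rw [h1, hi2]
  · rw [swap_apply_of_ne_of_ne hi hi2]
    rcases h i hi with h1 | h1
    · exfalso
      by_cases h2 : σ o = o
      · apply hi
        apply σ.injective
        rw [h1, h2]
      · rcases h (σ o) h2 with h3 | h3
        · apply hi2
          apply σ.injective
          rw [h1, h3]
        · exact h2 (σ.injective h3)
    · exact h1

theorem perm_eq_swap_mul_swap {α : Type*} [DecidableEq α] (o j : α) (hj : j ≠ o) (σ : Perm α)
    (h : ∀ i, i ≠ o → i ≠ j → σ i = o ∨ σ i = i) (hσ : σ j ≠ j) :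
    σ = swap o (σ j) * swap o j := by
  have hq : σ o = o ∨ σ o = j := by
    by_contra hcon
    push Not at hcon
    obtain ⟨h1, h2⟩ := hcon
    have h3 : σ (σ.symm j) = j := by simp
    have h4 : σ.symm j ≠ o := by
      intro h5; rw [h5] at h3; exact h2 h3
    have h6 : σ.symm j ≠ j := by
      intro h5; rw [h5] at h3; exact hσ h3
    rcases h _ h4 h6 with h7 | h7
    · rw [h3] at h7; exact hj h7
    · rw [h3] at h7; exact h6 h7.symm
  have key : σ * swap o j = swap o ((σ * swap o j) o) := by
    apply perm_eq_swap
    intro i hi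
    by_cases hij : i = j
    · subst hij
      simpa using hq
    · rw [Perm.mul_apply, swap_apply_of_ne_of_ne hi hij]
      exact h i hi hij
  have : (σ * swap o j) o = σ j := by simp
  rw [this] at key
  rw [← key]
  simp [mul_assoc]

variable {k : Type*} [Field k]

/-- The arrow matrix. -/
def arrow (k : Type*) [Field k] (s : ℕ) : Matrix (Fin (s + 1)) (Fin (s + 1)) k :=
  Matrix.of fun i j =>
    if i = 0 ∧ j = 0 then -(s : k) else if i = 0 ∨ j = 0 ∨ i = j then 1 else 0

theorem arrow_symm (s : ℕ) (i j : Fin (s + 1)) : arrow k s i j = arrow k s j i := by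
  simp only [arrow, Matrix.of_apply]
  by_cases hi : i = 0 <;> by_cases hj : j = 0 <;> simp [hi, hj, eq_comm]

theorem arrow_zero_zero (s : ℕ) : arrow k s 0 0 = -(s : k) := by simp [arrow]

theorem arrow_zero_left (s : ℕ) {j : Fin (s + 1)} (hj : j ≠ 0) : arrow k s 0 j = 1 := by
  simp [arrow, hj]

theorem arrow_zero_right (s : ℕ) {j : Fin (s + 1)} (hj : j ≠ 0) : arrow k s j 0 = 1 := by
  simp [arrow, hj]

theorem arrow_diag (s : ℕ) {j : Fin (s + 1)} (hj : j ≠ 0) : arrow k s j j = 1 := by
  simp [arrow, hj]

theorem arrow_off (s : ℕ) {i j : Fin (s + 1)} (hi : i ≠ 0) (hj : j ≠ 0) (hij : i ≠ j) :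
    arrow k s i j = 0 := by
  simp [arrow, hi, hj, hij]

theorem updateCol_zero_arrow (s : ℕ) (b : Fin (s + 1) → k) :
    ((arrow k s).updateCol 0 b).permanent = ∑ l, b l := by
  rw [Matrix.permanent]
  symm
  refine Finset.sum_of_injOn (fun l => swap 0 l) ?_ ?_ ?_ ?_
  · intro x _ y _ hxy
    have := congrArg (fun σ : Perm (Fin (s + 1)) => σ 0) hxy
    simpa using this
  · intro x _; simp
  · intro σ _ hσ
    by_contra hne
    apply hσ
    refine ⟨σ 0, by simp, ?_⟩
    symm
    apply perm_eq_swap
    intro i hi
    by_contra hcon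
    push Not at hcon
    apply hne
    apply Finset.prod_eq_zero (Finset.mem_univ i)
    rw [Matrix.updateCol_ne hi]
    exact arrow_off s hcon.1 hi hcon.2
  · intro l _
    rw [Finset.prod_eq_single 0]
    · simp
    · intro i _ hi
      rw [Matrix.updateCol_ne hi]
      by_cases hl : i = l
      · subst hl
        rw [swap_apply_right]
        exact arrow_zero_left s hi
      · rw [swap_apply_of_ne_of_ne hi hl]
        exact arrow_diag s hi
    · simp

theorem updateCol_arrow (s : ℕ) (b : Fin (s + 1) → k) (j : Fin (s + 1)) (hj : j ≠ 0) :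
    ((arrow k s).updateCol j b).permanent = (∑ l, b l) - 2 * b j := by
  rw [Matrix.permanent, ← Finset.sum_filter_add_sum_filter_not _ (fun σ : Perm (Fin (s + 1)) =>
    σ j = j)]
  have h1 : ∑ σ ∈ Finset.univ.filter (fun σ : Perm (Fin (s + 1)) => σ j = j),
      ∏ i, (arrow k s).updateCol j b (σ i) i =
      ∑ i ∈ Finset.univ.erase j, (b j * if i = 0 then -(s : k) else 1) := by
    symm
    refine Finset.sum_of_injOn (fun l => swap 0 l) ?_ ?_ ?_ ?_
    · intro x _ y _ hxy
      have := congrArg (fun σ : Perm (Fin (s + 1)) => σ 0) hxy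
      simpa using this
    · intro x hx
      simp only [coe_erase, coe_univ, Set.mem_sdiff, Set.mem_univ, Set.mem_singleton_iff,
        true_and] at hx
      simp [swap_apply_of_ne_of_ne hj (Ne.symm hx)]
    · intro σ hσj hσ
      simp only [mem_filter, mem_univ, true_and] at hσj
      by_contra hne
      apply hσ
      have hsw : σ = swap 0 (σ 0) := by
        apply perm_eq_swap
        intro i hi
        by_cases hij : i = j
        · right; rw [hij]; exact hσj
        by_contra hcon
        push Not at hcon
        apply hne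
        apply Finset.prod_eq_zero (Finset.mem_univ i)
        rw [Matrix.updateCol_ne hij]
        exact arrow_off s hcon.1 hi hcon.2
      refine ⟨σ 0, ?_, hsw.symm⟩
      simp only [coe_erase, coe_univ, Set.mem_sdiff, Set.mem_univ, Set.mem_singleton_iff,
        true_and]
      intro h0
      apply hj
      apply σ.injective
      rw [hσj, h0]
    · intro l hl
      have hl' : l ≠ j := Finset.ne_of_mem_erase hl
      rw [Finset.prod_eq_mul j 0 hj]
      · rw [Matrix.updateCol_self, Matrix.updateCol_ne (Ne.symm hj),
          swap_apply_of_ne_of_ne hj (Ne.symm hl'), swap_apply_left]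
        congr 1
        by_cases h0 : l = 0
        · subst h0; simp [arrow_zero_zero]
        · simp [h0, arrow_zero_right s h0]
      · rintro i _ ⟨hij, hi⟩
        rw [Matrix.updateCol_ne hij]
        by_cases hl : i = l
        · subst hl
          rw [swap_apply_right]
          exact arrow_zero_left s hi
        · rw [swap_apply_of_ne_of_ne hi hl]
          exact arrow_diag s hi
      · simp
      · simp
  have h2 : ∑ σ ∈ Finset.univ.filter (fun σ : Perm (Fin (s + 1)) => ¬ σ j = j),
      ∏ i, (arrow k s).updateCol j b (σ i) i = ∑ i ∈ Finset.univ.erase j, b i := by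
    symm
    refine Finset.sum_of_injOn (fun l => swap 0 l * swap 0 j) ?_ ?_ ?_ ?_
    · intro x _ y _ hxy
      have := congrArg (fun σ : Perm (Fin (s + 1)) => σ j) hxy
      simpa using this
    · intro x hx
      simp only [coe_erase, coe_univ, Set.mem_sdiff, Set.mem_univ, Set.mem_singleton_iff,
        true_and] at hx
      simp [hx]
    · intro σ hσj hσ
      simp only [mem_filter, mem_univ, true_and] at hσj
      by_contra hne
      apply hσ
      refine ⟨σ j, by simpa using hσj, ?_⟩
      symm
      apply perm_eq_swap_mul_swap 0 j hj σ _ hσj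
      intro i hi hij
      by_contra hcon
      push Not at hcon
      apply hne
      apply Finset.prod_eq_zero (Finset.mem_univ i)
      rw [Matrix.updateCol_ne hij]
      exact arrow_off s hcon.1 hi hcon.2
    · intro l hl
      have hl' : l ≠ j := Finset.ne_of_mem_erase hl
      rw [Finset.prod_eq_single j]
      · simp
      · intro i _ hij
        rw [Matrix.updateCol_ne hij, Perm.mul_apply]
        by_cases hi : i = 0
        · subst hi
          rw [swap_apply_left, swap_apply_of_ne_of_ne hj (Ne.symm hl')]
          exact arrow_zero_right s hj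
        · rw [swap_apply_of_ne_of_ne hi hij]
          by_cases hil : i = l
          · subst hil
            rw [swap_apply_right]
            exact arrow_zero_left s hi
          · rw [swap_apply_of_ne_of_ne hi hil]
            exact arrow_diag s hi
      · simp
  rw [h1, h2, ← Finset.mul_sum]
  have h3 : ∑ i ∈ Finset.univ.erase j, (if i = 0 then -(s : k) else 1) = -1 := by
    have h4 : ∑ i : Fin (s + 1), (if i = 0 then -(s : k) else 1) = 0 := by
      rw [Fin.sum_univ_succ]
      simp [Fin.succ_ne_zero]
    have h5 := Finset.add_sum_erase Finset.univ (fun i : Fin (s + 1) =>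
      (if i = 0 then -(s : k) else 1)) (Finset.mem_univ j)
    rw [h4] at h5
    simp only [hj, if_false] at h5
    linear_combination h5
  have h6 := Finset.add_sum_erase Finset.univ b (Finset.mem_univ j)
  rw [h3]
  linear_combination h6

theorem permanent_arrow (s : ℕ) : (arrow k s).permanent = 0 := by
  have h := updateCol_zero_arrow s (fun i => arrow k s i 0)
  have h1 : (arrow k s).updateCol 0 (fun i => arrow k s i 0) = arrow k s := by
    ext i j
    by_cases hj : j = 0
    · subst hj; simp
    · simp [hj]
  rw [h1] at h
  rw [h, Fin.sum_univ_succ, arrow_zero_zero]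
  simp [arrow_zero_right s (Fin.succ_ne_zero _)]

theorem det_permCof_arrow_ne_zero (h2 : (2 : k) ≠ 0) (s : ℕ) :
    (permCof (arrow k s)).det ≠ 0 := by
  intro hdet
  obtain ⟨b, hb, hb0⟩ := Matrix.exists_vecMul_eq_zero_iff.mpr hdet
  apply hb
  have hs : ∑ l, b l = 0 := by
    rw [← updateCol_zero_arrow s b, ← vecMul_permCof, hb0]; rfl
  have hj : ∀ j, j ≠ 0 → b j = 0 := by
    intro j hj
    have h := updateCol_arrow s b j hj
    rw [← vecMul_permCof, hb0, hs] at h
    have : 2 * b j = 0 := by
      have h' : (0 : k) = 0 - 2 * b j := h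
      linear_combination h'
    exact (mul_eq_zero.mp this).resolve_left h2
  ext j
  by_cases h0 : j = 0
  · subst h0
    rw [Fin.sum_univ_succ] at hs
    simpa [hj _ (Fin.succ_ne_zero _)] using hs
  · exact hj j h0

theorem map_permCof {R S : Type*} [CommRing R] [CommRing S] {n : Type*} [Fintype n]
    [DecidableEq n] (f : R →+* S) (A : Matrix n n R) :
    (permCof A).map f = permCof (A.map f) := by
  ext l j
  simp only [permCof, Matrix.map_apply, Matrix.of_apply, map_permanent]
  congr 1
  ext i c
  by_cases hc : c = j
  · subst hc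
    by_cases hi : i = l
    · subst hi; simp
    · simp [hi]
  · simp [hc]

end Pool.Agent.H32
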