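import Pool.Agent.H32.PermBasic

/-!
Irreducibility of the permanent of a square matrix of variables labelled in such a way that the
upper left corner variable occurs only once (generic, symmetric and Hankel matrices).
-/

namespace Pool.Agent.H32

open Matrix Finset Equiv MvPolynomial

variable {k : Type*} [Field k] {τ : Type*}

/-- A square matrix of variables. -/
noncomputable def varMat (k : Type*) [Field k] (L : ℕ → ℕ → τ) (n a : ℕ) :
    Matrix (Fin n) (Fin n) (MvPolynomial τ k) :=
  Matrix.of fun i j => X (L (a + i) (a + j))

theorem not_mem_vars_permanent {n : Type*} [Fintype n] [DecidableEq n] [DecidableEq τ]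
    (A : Matrix n n (MvPolynomial τ k)) (x : τ) (h : ∀ i j, x ∉ (A i j).vars) :
    x ∉ A.permanent.vars := by
  intro hx
  rw [Matrix.permanent] at hx
  have h1 := vars_sum_subset _ _ hx
  rw [Finset.mem_biUnion] at h1
  obtain ⟨σ, _, hσ⟩ := h1
  have h2 := vars_prod _ hσ
  rw [Finset.mem_biUnion] at h2
  obtain ⟨i, _, hi⟩ := h2
  exact h _ _ hi

theorem irreducible_varMat (L : ℕ → ℕ → τ)
    (h1 : ∀ a i j, L a a = L (a + i) (a + j) → i = 0 ∧ j = 0)
    (h2 : ∀ a n, ∃ v : τ → k, (∀ j : ℕ, j ≤ n → v (L (a + 1) (a + 1 + j)) = 0) ∧
      (Matrix.of fun i j : Fin (n + 2) => v (L (a + i) (a + j))).permanent ≠ 0) (n a : ℕ) :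
    Irreducible (varMat k L (n + 1) a).permanent := by
  classical
  induction n generalizing a with
  | zero =>
    rw [Matrix.permanent_eq_elem_of_subsingleton _ (0 : Fin 1)]
    exact X_prime.irreducible
  | succ n ih =>
    rw [permanent_succ_column_zero, Fin.sum_univ_succ]
    have hsub : (varMat k L (n + 2) a).submatrix (Fin.succAbove 0) Fin.succ =
        varMat k L (n + 1) (a + 1) := by
      ext i j
      simp [varMat, add_assoc, add_comm 1]
    rw [hsub]
    set g := (varMat k L (n + 1) (a + 1)).permanent with hg
    set h := ∑ i : Fin (n + 1), varMat k L (n + 2) a i.succ 0 *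
      ((varMat k L (n + 2) a).submatrix i.succ.succAbove Fin.succ).permanent with hh
    have hX : varMat k L (n + 1 + 1) a 0 0 = X (L a a) := by simp [varMat]
    rw [hX, mul_comm]
    apply irreducible_mul_X_add
    · exact (ih (a + 1)).ne_zero
    · rw [hg]
      apply not_mem_vars_permanent
      intro i j
      simp only [varMat, Matrix.of_apply, vars_X, Finset.mem_singleton]
      intro he
      have := h1 a (1 + i) (1 + j) (by rw [he]; congr 1 <;> ring)
      omega
    · intro hx
      rw [hh] at hx
      have h3 := vars_sum_subset _ _ hx
      rw [Finset.mem_biUnion] at h3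
      obtain ⟨i, _, hi⟩ := h3
      have h4 := vars_mul _ _ hi
      rw [Finset.mem_union] at h4
      rcases h4 with h4 | h4
      · simp only [varMat, Matrix.of_apply, vars_X, Finset.mem_singleton] at h4
        have := h1 a _ _ h4
        simp at this
      · revert h4
        apply not_mem_vars_permanent
        intro i' j'
        simp only [varMat, Matrix.submatrix_apply, Matrix.of_apply, vars_X,
          Finset.mem_singleton]
        intro he
        have := h1 a _ _ he
        simp at this
    · rw [(ih (a + 1)).isRelPrime_iff_not_dvd]
      intro hdvd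
      obtain ⟨v, hv0, hv⟩ := h2 a n
      obtain ⟨q, hq⟩ := hdvd
      have hgz : MvPolynomial.eval v g = 0 := by
        rw [hg, map_permanent]
        apply permanent_eq_zero_of_row _ 0
        intro j
        simp only [varMat, Matrix.map_apply, Matrix.of_apply, eval_X]
        have := hv0 j (by omega)
        simpa using this
      apply hv
      have hfull : MvPolynomial.eval v (varMat k L (n + 2) a).permanent = 0 := by
        rw [permanent_succ_column_zero, Fin.sum_univ_succ, hsub, ← hg, ← hh, hq, map_add,
          map_mul, map_mul, hgz]
        ring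
      rw [map_permanent] at hfull
      rw [← hfull]
      congr 1
      ext i j
      simp [varMat]

theorem irreducible_of_rename {σ τ : Type*} (e : σ → τ) (he : Function.Injective e)
    (p : MvPolynomial σ k) (hp : Irreducible (rename e p)) : Irreducible p := by
  have hu : ∀ a : MvPolynomial σ k, IsUnit (rename e a) → IsUnit a := by
    intro a ha
    have := ha.map (killCompl (R := k) he)
    rwa [killCompl_rename_app] at this
  refine ⟨fun h => hp.not_isUnit (h.map (rename e)), fun a b hab => ?_⟩
  rw [hab, map_mul] at hp
  rcases hp.isUnit_or_isUnit rfl with h | h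
  · exact Or.inl (hu _ h)
  · exact Or.inr (hu _ h)

end Pool.Agent.H32
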