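import Pool.Agent.H32.Arrow
import Pool.Agent.H32.Irr

/-!
Primality of the permanental ideals of generic and symmetric matrices.
-/

namespace Pool.Agent.H32

open Matrix Finset Equiv MvPolynomial

variable {k : Type*} [Field k] {τ : Type*}

/-- The generic `m × n` matrix. -/
noncomputable def genericMatrix (k : Type*) [Field k] (m n : ℕ) :
    Matrix (Fin m) (Fin n) (MvPolynomial (Fin m × Fin n) k) :=
  Matrix.of fun i j => X (i, j)

/-- The symmetric `n × n` matrix of indeterminates. -/
noncomputable def symmetricMatrix (k : Type*) [Field k] (n : ℕ) :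
    Matrix (Fin n) (Fin n) (MvPolynomial (Sym2 (Fin n)) k) :=
  Matrix.of fun i j => X s(i, j)

theorem strictMono_fin_eq_id {n : ℕ} (f : Fin n → Fin n) (hf : StrictMono f) : f = id := by
  apply (StrictMono.range_inj hf strictMono_id).mp
  rw [Set.range_id, Set.range_eq_univ]
  exact Finite.injective_iff_surjective.mp hf.injective

theorem X_not_mem_permIdeal {m n t : ℕ} (ht : 2 ≤ t)
    (M : Matrix (Fin m) (Fin n) (MvPolynomial τ k)) (lab : Fin m → Fin n → τ)
    (hM : ∀ i j, M i j = X (lab i j)) (x : τ) : X x ∉ permIdeal t M := by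
  intro hx
  let φ : MvPolynomial τ k →+* DualNumber k := (aeval (fun _ => DualNumber.eps)).toRingHom
  have hle : permIdeal t M ≤ RingHom.ker φ := by
    rw [permIdeal, Ideal.span_le]
    rintro f ⟨r, c, rfl⟩
    rw [SetLike.mem_coe, RingHom.mem_ker, map_permanent, Matrix.permanent]
    refine Finset.sum_eq_zero fun σ _ => ?_
    have : ∀ i, ((M.submatrix r c).map φ) (σ i) i = DualNumber.eps := by
      intro i
      simp [hM, φ]
    simp only [this, Finset.prod_const, Finset.card_univ, Fintype.card_fin]
    obtain ⟨u, rfl⟩ := Nat.exists_eq_add_of_le ht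
    rw [pow_add, pow_two, DualNumber.eps_mul_eps, zero_mul]
  have h1 := hle hx
  rw [RingHom.mem_ker] at h1
  have h2 : φ (X x) = DualNumber.eps := by simp [φ]
  rw [h2] at h1
  have h3 := congrArg TrivSqZeroExt.snd h1
  simp at h3

theorem not_prime_of_arrow {m n s : ℕ} (hs : 1 ≤ s) (hm : s + 1 ≤ m) (hn : s + 2 ≤ n)
    (M : Matrix (Fin m) (Fin n) (MvPolynomial τ k)) (lab : Fin m → Fin n → τ)
    (hM : ∀ i j, M i j = X (lab i j)) (h2 : (2 : k) ≠ 0) (v : τ → k)
    (hv : ∀ i j, v (lab i j) = if h : (i : ℕ) < s + 1 ∧ (j : ℕ) < s + 1 then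
      arrow k s ⟨i, h.1⟩ ⟨j, h.2⟩ else 0) : ¬ (permIdeal (s + 1) M).IsPrime := by
  intro hprime
  let r : Fin (s + 1) → Fin m := Fin.castLE hm
  let c : Fin (s + 1) → Fin n := Fin.castLE (by omega)
  let c0 : Fin n := ⟨s + 1, by omega⟩
  have h := det_permCof_mul_mem M r (Fin.castLE_injective _) c (Fin.castLE_injective _) c0
    (by
      intro i hi
      have := congrArg Fin.val hi
      simp [c, c0] at this
      omega) 0
  rcases hprime.mem_or_mem h with h | h
  · have hle : permIdeal (s + 1) M ≤ RingHom.ker (MvPolynomial.eval v) := by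
      rw [permIdeal, Ideal.span_le]
      rintro f ⟨r, c, rfl⟩
      rw [SetLike.mem_coe, RingHom.mem_ker, map_permanent]
      by_cases hr : ∀ i, (r i : ℕ) < s + 1
      · by_cases hc : ∀ i, (c i : ℕ) < s + 1
        · have key : ∀ {q : ℕ} (r : Fin (s + 1) ↪o Fin q), (∀ i, (r i : ℕ) < s + 1) →
              ∀ i, (r i : ℕ) = i := by
            intro q r hr i
            let r' : Fin (s + 1) → Fin (s + 1) := fun i => ⟨r i, hr i⟩
            have hmono : StrictMono r' := fun a b hab => by
              have := r.strictMono hab
              exact this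
            have hid : r' = id := strictMono_fin_eq_id r' hmono
            have := congrFun hid i
            exact congrArg Fin.val this
          have h1 : ((M.submatrix r c).map (MvPolynomial.eval v)) = arrow k s := by
            ext i j
            simp only [Matrix.map_apply, Matrix.submatrix_apply, hM, eval_X, hv]
            rw [dif_pos ⟨hr i, hc j⟩]
            congr 1
            · exact Fin.ext (key r hr i)
            · exact Fin.ext (key c hc j)
          rw [h1, permanent_arrow]
        · push Not at hc
          obtain ⟨i, hi⟩ := hc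
          apply permanent_eq_zero_of_col _ i
          intro j
          simp only [Matrix.map_apply, Matrix.submatrix_apply, hM, eval_X, hv]
          rw [dif_neg]
          omega
      · push Not at hr
        obtain ⟨i, hi⟩ := hr
        apply permanent_eq_zero_of_row _ i
        intro j
        simp only [Matrix.map_apply, Matrix.submatrix_apply, hM, eval_X, hv]
        rw [dif_neg]
        omega
    have h1 := hle h
    rw [RingHom.mem_ker, RingHom.map_det, RingHom.mapMatrix_apply, map_permCof] at h1
    apply det_permCof_arrow_ne_zero h2 s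
    rw [← h1]
    congr 2
    ext i j
    simp only [Matrix.map_apply, Matrix.submatrix_apply, hM, eval_X, hv, r, c]
    rw [dif_pos ⟨i.2, j.2⟩]
    rfl
  · rw [hM] at h
    exact X_not_mem_permIdeal (by omega) M lab hM _ h

theorem permIdeal_square {n : ℕ} (M : Matrix (Fin n) (Fin n) (MvPolynomial τ k)) :
    permIdeal n M = Ideal.span {M.permanent} := by
  unfold permIdeal
  congr 1
  ext f
  have key : ∀ r : Fin n ↪o Fin n, (r : Fin n → Fin n) = id := fun r =>
    strictMono_fin_eq_id r r.strictMono
  constructor
  · rintro ⟨r, c, rfl⟩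
    rw [key r, key c]
    simp
  · intro hf
    refine ⟨RelEmbedding.refl _, RelEmbedding.refl _, ?_⟩
    have hf' : f = M.permanent := hf
    rw [hf']
    rfl

theorem isPrime_of_irreducible {n : ℕ} (M : Matrix (Fin n) (Fin n) (MvPolynomial τ k))
    (h : Irreducible M.permanent) : (permIdeal n M).IsPrime := by
  rw [permIdeal_square, Ideal.span_singleton_prime h.ne_zero]
  exact h.prime

end Pool.Agent.H32
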