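import Pool.Agent.H32.SquareIrr

/-!
Generic and symmetric matrices: the permanental ideal `P_t(X)` is prime iff `t = m = n`.
-/

namespace Pool.Agent.H32

open MvPolynomial

theorem generic_iff {k : Type*} [Field k] (h2 : (2 : k) ≠ 0) {m n t : ℕ} (ht : 2 ≤ t)
    (htm : t ≤ m) (htn : t ≤ n) :
    (permIdeal t (genericMatrix k m n)).IsPrime ↔ t = m ∧ m = n := by
  constructor
  · intro hp
    by_contra hne
    obtain ⟨s, rfl⟩ := Nat.exists_eq_add_of_le' (show 1 ≤ t by omega)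
    rcases lt_or_ge (s + 1) n with h | h
    · refine not_prime_of_arrow (s := s) (by omega) htm (by omega) (genericMatrix k m n)
        (fun i j => (i, j)) (fun i j => rfl) h2
        (fun x => if h : (x.1 : ℕ) < s + 1 ∧ (x.2 : ℕ) < s + 1 then
          arrow k s ⟨x.1, h.1⟩ ⟨x.2, h.2⟩ else 0) (fun i j => rfl) hp
    · have hm : s + 1 < m := by omega
      rw [← permIdeal_transpose] at hp
      refine not_prime_of_arrow (s := s) (by omega) htn (by omega) (genericMatrix k m n).transpose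
        (fun i j => (j, i)) (fun i j => rfl) h2
        (fun x => if h : (x.2 : ℕ) < s + 1 ∧ (x.1 : ℕ) < s + 1 then
          arrow k s ⟨x.2, h.1⟩ ⟨x.1, h.2⟩ else 0) (fun i j => rfl) hp
  · rintro ⟨rfl, rfl⟩
    exact isPrime_of_irreducible _ (generic_irreducible t (by omega))

theorem symmetric_iff {k : Type*} [Field k] (h2 : (2 : k) ≠ 0) {n t : ℕ} (ht : 2 ≤ t)
    (htn : t ≤ n) : (permIdeal t (symmetricMatrix k n)).IsPrime ↔ t = n := by
  constructor
  · intro hp
    by_contra hne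
    obtain ⟨s, rfl⟩ := Nat.exists_eq_add_of_le' (show 1 ≤ t by omega)
    have hsymm : ∀ a b : Fin n, (if h : (a : ℕ) < s + 1 ∧ (b : ℕ) < s + 1 then
        arrow k s ⟨a, h.1⟩ ⟨b, h.2⟩ else 0) = (if h : (b : ℕ) < s + 1 ∧ (a : ℕ) < s + 1 then
        arrow k s ⟨b, h.1⟩ ⟨a, h.2⟩ else 0) := by
      intro a b
      by_cases h : (a : ℕ) < s + 1 ∧ (b : ℕ) < s + 1
      · rw [dif_pos h, dif_pos ⟨h.2, h.1⟩, arrow_symm]
      · rw [dif_neg h, dif_neg (fun h' => h ⟨h'.2, h'.1⟩)]
    refine not_prime_of_arrow (s := s) (by omega) htn (by omega) (symmetricMatrix k n)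
      (fun i j => s(i, j)) (fun i j => rfl) h2
      (Sym2.lift ⟨fun a b => if h : (a : ℕ) < s + 1 ∧ (b : ℕ) < s + 1 then
        arrow k s ⟨a, h.1⟩ ⟨b, h.2⟩ else 0, hsymm⟩) (fun i j => ?_) hp
    rw [Sym2.lift_mk]
  · rintro rfl
    exact isPrime_of_irreducible _ (symmetric_irreducible t (by omega))

end Pool.Agent.H32
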