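import Mathlib

/-!
Basic facts on permanents: Laplace expansion, linearity in a column, and the ideal generated by
the permanents of the `t × t` submatrices.
-/

namespace Pool.Agent.H32

open Matrix Finset Equiv

variable {R : Type*} [CommRing R]

theorem permanent_succ_column_zero {n : ℕ} (A : Matrix (Fin (n + 1)) (Fin (n + 1)) R) :
    A.permanent = ∑ i, A i 0 * (A.submatrix i.succAbove Fin.succ).permanent := by
  rw [Matrix.permanent, ← (Equiv.Perm.decomposeFin (n := n)).symm.sum_comp, Fintype.sum_prod_type]
  refine Finset.sum_congr rfl fun i _ => ?_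
  rw [Matrix.permanent, Finset.mul_sum]
  refine Fin.cases ?_ (fun j => ?_) i
  · refine Finset.sum_congr rfl fun σ _ => ?_
    rw [Fin.prod_univ_succ]
    simp
  · symm
    rw [← Equiv.sum_comp (Equiv.mulLeft (j.cycleRange))]
    refine Finset.sum_congr rfl fun σ _ => ?_
    rw [Fin.prod_univ_succ]
    simp [Fin.succAbove_cycleRange]

theorem map_permanent {S : Type*} [CommRing S] {n : Type*} [Fintype n] [DecidableEq n]
    (f : R →+* S) (A : Matrix n n R) : f A.permanent = (A.map f).permanent := by
  simp [Matrix.permanent, map_sum, map_prod]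

theorem permanent_eq_zero_of_row {n : Type*} [Fintype n] [DecidableEq n] (A : Matrix n n R)
    (i : n) (h : ∀ j, A i j = 0) : A.permanent = 0 := by
  rw [Matrix.permanent]
  refine Finset.sum_eq_zero fun σ _ => ?_
  exact Finset.prod_eq_zero (Finset.mem_univ (σ.symm i)) (by simp [h])

theorem permanent_eq_zero_of_col {n : Type*} [Fintype n] [DecidableEq n] (A : Matrix n n R)
    (j : n) (h : ∀ i, A i j = 0) : A.permanent = 0 := by
  rw [Matrix.permanent]
  refine Finset.sum_eq_zero fun σ _ => ?_
  exact Finset.prod_eq_zero (Finset.mem_univ j) (h _)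

/-- Permanent of `A` after replacing column `j` by `b`, expanded. -/
theorem permanent_updateCol {n : Type*} [Fintype n] [DecidableEq n] (A : Matrix n n R)
    (j : n) (b : n → R) :
    (A.updateCol j b).permanent =
      ∑ σ : Perm n, b (σ j) * ∏ i ∈ Finset.univ.erase j, A (σ i) i := by
  rw [Matrix.permanent]
  refine Finset.sum_congr rfl fun σ _ => ?_
  rw [← Finset.mul_prod_erase _ _ (Finset.mem_univ j)]
  congr 1
  · simp
  · refine Finset.prod_congr rfl fun i hi => ?_
    rw [Matrix.updateCol_ne (Finset.ne_of_mem_erase hi)]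

/-- The matrix of (generalised) cofactor permanents. -/
def permCof {n : Type*} [Fintype n] [DecidableEq n] (A : Matrix n n R) : Matrix n n R :=
  Matrix.of fun l j => (A.updateCol j (Pi.single l 1)).permanent

theorem vecMul_permCof {n : Type*} [Fintype n] [DecidableEq n] (A : Matrix n n R)
    (b : n → R) (j : n) : (b ᵥ* permCof A) j = (A.updateCol j b).permanent := by
  rw [permanent_updateCol]
  simp only [Matrix.vecMul, dotProduct, permCof, Matrix.of_apply, permanent_updateCol,
    Finset.mul_sum]
  rw [Finset.sum_comm]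
  refine Finset.sum_congr rfl fun σ _ => ?_
  rw [Finset.sum_eq_single (σ j)]
  · simp
  · intro l _ hl
    simp [hl.symm]
  · simp

/-- The ideal generated by the permanents of all `t × t` submatrices. -/
def permIdeal {m n : ℕ} (t : ℕ) (M : Matrix (Fin m) (Fin n) R) : Ideal R :=
  Ideal.span {f | ∃ (r : Fin t ↪o Fin m) (c : Fin t ↪o Fin n), f = (M.submatrix r c).permanent}

theorem permanent_submatrix_perm {n : Type*} [Fintype n] [DecidableEq n] (A : Matrix n n R)
    (σ τ : Perm n) : (A.submatrix σ τ).permanent = A.permanent := by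
  have h1 : A.submatrix σ τ = (A.submatrix σ id).submatrix id τ := by
    simp [Matrix.submatrix_submatrix]
  rw [h1, Matrix.permanent_permute_rows, Matrix.permanent_permute_cols]

theorem exists_orderEmb {t m : ℕ} (r : Fin t → Fin m) (hr : Function.Injective r) :
    ∃ (σ : Perm (Fin t)) (r' : Fin t ↪o Fin m), ∀ i, r' i = r (σ i) := by
  refine ⟨Tuple.sort r, OrderEmbedding.ofStrictMono (r ∘ Tuple.sort r) ?_, fun i => rfl⟩
  exact (Tuple.monotone_sort r).strictMono_of_injective
    (hr.comp (Tuple.sort r).injective)

theorem permanent_mem_permIdeal {m n t : ℕ} (M : Matrix (Fin m) (Fin n) R)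
    (r : Fin t → Fin m) (hr : Function.Injective r) (c : Fin t → Fin n)
    (hc : Function.Injective c) : (M.submatrix r c).permanent ∈ permIdeal t M := by
  obtain ⟨σ, r', hr'⟩ := exists_orderEmb r hr
  obtain ⟨τ, c', hc'⟩ := exists_orderEmb c hc
  have h : (M.submatrix r c).permanent = (M.submatrix r' c').permanent := by
    have : M.submatrix r' c' = (M.submatrix r c).submatrix σ τ := by
      ext i j; simp [hr', hc']
    rw [this, permanent_submatrix_perm]
  rw [h]
  exact Ideal.subset_span ⟨r', c', rfl⟩

theorem permIdeal_transpose {m n t : ℕ} (M : Matrix (Fin m) (Fin n) R) :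
    permIdeal t M.transpose = permIdeal t M := by
  unfold permIdeal
  congr 1
  ext f
  constructor
  · rintro ⟨r, c, rfl⟩
    refine ⟨c, r, ?_⟩
    rw [← Matrix.permanent_transpose]
    rfl
  · rintro ⟨r, c, rfl⟩
    refine ⟨c, r, ?_⟩
    rw [← Matrix.permanent_transpose]
    rfl

/-- `det P * b_l` lies in the ideal, where `P` is the cofactor-permanent matrix of a `t × t`
submatrix and `b` a further column. -/
theorem det_permCof_mul_mem {m n t : ℕ} (M : Matrix (Fin m) (Fin n) R)
    (r : Fin t → Fin m) (hr : Function.Injective r) (c : Fin t → Fin n)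
    (hc : Function.Injective c) (c0 : Fin n) (h0 : ∀ i, c i ≠ c0) (l : Fin t) :
    (permCof (M.submatrix r c)).det * M (r l) c0 ∈ permIdeal t M := by
  set P := permCof (M.submatrix r c) with hP
  set b : Fin t → R := fun i => M (r i) c0 with hb
  have hmem : ∀ j, (b ᵥ* P) j ∈ permIdeal t M := by
    intro j
    rw [hP, vecMul_permCof]
    have : (M.submatrix r c).updateCol j b = M.submatrix r (Function.update c j c0) := by
      ext i k
      by_cases hk : k = j
      · subst hk; simp [hb]
      · simp [hk]
    rw [this]
    refine permanent_mem_permIdeal M r hr _ ?_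
    intro x y hxy
    by_cases hx : x = j <;> by_cases hy : y = j
    · rw [hx, hy]
    · subst hx; simp [hy] at hxy; exact absurd hxy.symm (h0 y)
    · subst hy; simp [hx] at hxy; exact absurd hxy (h0 x)
    · simp [hx, hy] at hxy; exact hc hxy
  have key : P.det * b l = ((b ᵥ* P) ᵥ* P.adjugate) l := by
    rw [Matrix.vecMul_vecMul, Matrix.mul_adjugate]
    simp [Matrix.vecMul_smul, mul_comm]
  have : P.det * M (r l) c0 = ∑ j, (b ᵥ* P) j * P.adjugate j l := by
    rw [show M (r l) c0 = b l from rfl, key]; rfl
  rw [this]
  exact Ideal.sum_mem _ fun j _ => Ideal.mul_mem_right _ _ (hmem j)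

end Pool.Agent.H32
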