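import Pool.Agent.H32.GenSym

/-!
The permanents of the generic, symmetric and Hankel square matrices are irreducible.
-/

namespace Pool.Agent.H32

open Matrix Finset Equiv MvPolynomial

variable {k : Type*} [Field k]

theorem permanent_permMatrix_ne_zero {n : ℕ} (π : Perm (Fin n)) (M : Matrix (Fin n) (Fin n) k)
    (h : ∀ i j, M i j = if π i = j then 1 else 0) : M.permanent ≠ 0 := by
  have h1 : M = (1 : Matrix (Fin n) (Fin n) k).submatrix π id := by
    ext i j
    rw [h, Matrix.submatrix_apply, Matrix.one_apply]
    rfl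
  rw [h1, Matrix.permanent_permute_cols, Matrix.permanent_one]
  exact one_ne_zero

theorem generic_irreducible (n : ℕ) (hn : 1 ≤ n) :
    Irreducible (genericMatrix k n n).permanent := by
  obtain ⟨n, rfl⟩ := Nat.exists_eq_add_of_le' hn
  have hL := irreducible_varMat (k := k) (fun i j : ℕ => (i, j))
    (by
      intro a i j h
      simp only [Prod.mk.injEq] at h
      omega)
    (by
      intro a n
      refine ⟨fun x => if (x.1 = a ∧ x.2 = a + 1) ∨ (x.1 = a + 1 ∧ x.2 = a) ∨
        (x.1 = x.2 ∧ a + 2 ≤ x.1) then 1 else 0, ?_, ?_⟩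
      · intro j _
        simp only
        rw [if_neg]
        omega
      · apply permanent_permMatrix_ne_zero (swap 0 1)
        intro i j
        simp only [Matrix.of_apply]
        have : (a + (i : ℕ) = a ∧ a + (j : ℕ) = a + 1 ∨ a + (i : ℕ) = a + 1 ∧ a + (j : ℕ) = a ∨
            a + (i : ℕ) = a + (j : ℕ) ∧ a + 2 ≤ a + (i : ℕ)) ↔ swap 0 1 i = j := by
          have e0 : ((0 : Fin (n + 2)) : ℕ) = 0 := rfl
          have e1 : ((1 : Fin (n + 2)) : ℕ) = 1 := rfl
          by_cases h0 : i = 0
          · subst h0
            rw [swap_apply_left, Fin.ext_iff]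
            omega
          by_cases h1 : i = 1
          · subst h1
            rw [swap_apply_right, Fin.ext_iff]
            omega
          · rw [swap_apply_of_ne_of_ne h0 h1]
            rw [Fin.ext_iff] at h0 h1 ⊢
            omega
        simp only [this]) n 0
  refine irreducible_of_rename (fun x : Fin (n + 1) × Fin (n + 1) => ((x.1 : ℕ), (x.2 : ℕ))) ?_ _ ?_
  · rintro ⟨a, b⟩ ⟨c, d⟩ h
    simp only [Prod.mk.injEq] at h
    exact Prod.ext (Fin.ext h.1) (Fin.ext h.2)
  · have : rename (fun x : Fin (n + 1) × Fin (n + 1) => ((x.1 : ℕ), (x.2 : ℕ)))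
        (genericMatrix k (n + 1) (n + 1)).permanent =
        (varMat k (fun i j : ℕ => (i, j)) (n + 1) 0).permanent := by
      have := map_permanent (rename (R := k) (fun x : Fin (n + 1) × Fin (n + 1) =>
        ((x.1 : ℕ), (x.2 : ℕ)))).toRingHom (genericMatrix k (n + 1) (n + 1))
      refine this.trans ?_
      congr 1
      ext i j
      simp [genericMatrix, varMat]
    rw [this]
    exact hL

theorem symmetric_irreducible (n : ℕ) (hn : 1 ≤ n) :
    Irreducible (symmetricMatrix k n).permanent := by
  classical
  obtain ⟨n, rfl⟩ := Nat.exists_eq_add_of_le' hn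
  have hL := irreducible_varMat (k := k) (fun i j : ℕ => s(i, j))
    (by
      intro a i j h
      rw [Sym2.eq_iff] at h
      omega)
    (by
      intro a n
      refine ⟨Sym2.lift ⟨fun x y => if (x = a ∧ y = a + 1) ∨ (x = a + 1 ∧ y = a) ∨
        (x = y ∧ a + 2 ≤ x) then 1 else 0, ?_⟩, ?_, ?_⟩
      · intro x y
        have : ((x = a ∧ y = a + 1) ∨ (x = a + 1 ∧ y = a) ∨ (x = y ∧ a + 2 ≤ x)) ↔
          ((y = a ∧ x = a + 1) ∨ (y = a + 1 ∧ x = a) ∨ (y = x ∧ a + 2 ≤ y)) := by omega
        simp only [this]
      · intro j _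
        rw [Sym2.lift_mk]
        simp only
        rw [if_neg]
        omega
      · apply permanent_permMatrix_ne_zero (swap 0 1)
        intro i j
        simp only [Matrix.of_apply, Sym2.lift_mk]
        have : (a + (i : ℕ) = a ∧ a + (j : ℕ) = a + 1 ∨ a + (i : ℕ) = a + 1 ∧ a + (j : ℕ) = a ∨
            a + (i : ℕ) = a + (j : ℕ) ∧ a + 2 ≤ a + (i : ℕ)) ↔ swap 0 1 i = j := by
          have e0 : ((0 : Fin (n + 2)) : ℕ) = 0 := rfl
          have e1 : ((1 : Fin (n + 2)) : ℕ) = 1 := rfl
          by_cases h0 : i = 0
          · subst h0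
            rw [swap_apply_left, Fin.ext_iff]
            omega
          by_cases h1 : i = 1
          · subst h1
            rw [swap_apply_right, Fin.ext_iff]
            omega
          · rw [swap_apply_of_ne_of_ne h0 h1]
            rw [Fin.ext_iff] at h0 h1 ⊢
            omega
        simp only [this]) n 0
  refine irreducible_of_rename (Sym2.map (fun x : Fin (n + 1) => (x : ℕ)))
    (Sym2.map.injective Fin.val_injective) _ ?_
  have : rename (Sym2.map (fun x : Fin (n + 1) => (x : ℕ)))
      (symmetricMatrix k (n + 1)).permanent =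
      (varMat k (fun i j : ℕ => s(i, j)) (n + 1) 0).permanent := by
    have := map_permanent (rename (R := k) (Sym2.map (fun x : Fin (n + 1) =>
      (x : ℕ)))).toRingHom (symmetricMatrix k (n + 1))
    refine this.trans ?_
    congr 1
    ext i j
    simp [symmetricMatrix, varMat]
  rw [this]
  exact hL

/-- The Hankel `m × n` matrix. -/
noncomputable def hankelMatrix (k : Type*) [Field k] (m n : ℕ) :
    Matrix (Fin m) (Fin n) (MvPolynomial (Fin (m + n - 1)) k) :=
  Matrix.of fun i j => X ⟨i + j, by omega⟩

/-- The involution `0 ↔ 1`, `i ↔ n + 3 - i`. -/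
def hankelPerm (n : ℕ) : Perm (Fin (n + 2)) :=
  Function.Involutive.toPerm (fun i => if h : (i : ℕ) < 2 then ⟨1 - i, by omega⟩ else
    ⟨n + 3 - i, by omega⟩) (by
      intro i
      have hi := i.2
      simp only
      split_ifs with h1 h2 h3
      · ext; simp; omega
      · exfalso; simp only [not_lt] at h2; omega
      · exfalso; simp only at h3; omega
      · ext; simp; omega)

theorem hankelPerm_val (n : ℕ) (i : Fin (n + 2)) :
    ((hankelPerm n i : Fin (n + 2)) : ℕ) =
      if (i : ℕ) < 2 then 1 - (i : ℕ) else n + 3 - (i : ℕ) := by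
  simp only [hankelPerm, Function.Involutive.coe_toPerm]
  split_ifs <;> rfl

theorem hankel_irreducible (n : ℕ) (hn : 1 ≤ n) :
    Irreducible (hankelMatrix k n n).permanent := by
  obtain ⟨n, rfl⟩ := Nat.exists_eq_add_of_le' hn
  have hL := irreducible_varMat (k := k) (fun i j : ℕ => i + j)
    (by
      intro a i j h
      omega)
    (by
      intro a n
      refine ⟨fun x => if x = a + a + 1 ∨ x = a + a + (n + 3) then 1 else 0, ?_, ?_⟩
      · intro j _
        simp only
        rw [if_neg]
        omega
      · apply permanent_permMatrix_ne_zero (hankelPerm n)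
        intro i j
        simp only [Matrix.of_apply]
        have : (a + (i : ℕ) + (a + (j : ℕ)) = a + a + 1 ∨
            a + (i : ℕ) + (a + (j : ℕ)) = a + a + (n + 3)) ↔ hankelPerm n i = j := by
          have hi := i.2
          have hj := j.2
          rw [Fin.ext_iff, hankelPerm_val]
          split_ifs with h <;> omega
        simp only [this]) n 0
  refine irreducible_of_rename (fun x : Fin (n + 1 + (n + 1) - 1) => (x : ℕ))
    Fin.val_injective _ ?_
  have : rename (fun x : Fin (n + 1 + (n + 1) - 1) => (x : ℕ))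
      (hankelMatrix k (n + 1) (n + 1)).permanent =
      (varMat k (fun i j : ℕ => i + j) (n + 1) 0).permanent := by
    have := map_permanent (rename (R := k) (fun x : Fin (n + 1 + (n + 1) - 1) =>
      (x : ℕ))).toRingHom (hankelMatrix k (n + 1) (n + 1))
    refine this.trans ?_
    congr 1
    ext i j
    simp [hankelMatrix, varMat]
  rw [this]
  exact hL

end Pool.Agent.H32
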